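import Mathlib

/-!
# Pendant edges at the larger class of a connected bipartite graph

If `H` is a connected bipartite graph whose bipartition classes have different sizes, and `H'` is
obtained from `H` by adding a pendant edge at a vertex of the larger class, then `H` and `H'` are
not Ramsey-equivalent: a complete bipartite graph `K_{2a,M}` is Ramsey for `H` but not for `H'`.
-/

namespace Pool.Agent.Results.MP_3240be_co.LargerClass

open Finset

/-- `F → H`: every colouring of the edges of `F` with two colours has a monochromatic copy of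
`H`. -/
def Arrows {m n : ℕ} (F : SimpleGraph (Fin m)) (H : SimpleGraph (Fin n)) : Prop :=
  ∀ c : Fin m → Fin m → Bool, (∀ x y : Fin m, c x y = c y x) →
    ∃ b : Bool, ∃ f : Fin n → Fin m, Function.Injective f ∧
      ∀ i j : Fin n, H.Adj i j → F.Adj (f i) (f j) ∧ c (f i) (f j) = b

/-- The complete bipartite graph on `Fin m` with classes `{x < p}` and `{x ≥ p}`. -/
def host (p m : ℕ) : SimpleGraph (Fin m) where
  Adj x y := (x.val < p ∧ p ≤ y.val) ∨ (y.val < p ∧ p ≤ x.val)
  symm := ⟨by
    intro x y h
    rcases h with h | h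
    · exact Or.inr h
    · exact Or.inl h⟩
  loopless := ⟨by
    intro x h
    rcases h with h | h <;> omega⟩

/-- A walk argument: two proper 2-colourings of a connected graph agree up to a swap. -/
lemma two_col {n : ℕ} (H : SimpleGraph (Fin n)) (hc : H.Connected) (κ : Fin n → Bool)
    (hκ : ∀ i j, H.Adj i j → κ i ≠ κ j) (s : Fin n → Prop)
    (hs : ∀ i j, H.Adj i j → (s i ↔ ¬ s j)) (v : Fin n) (i : Fin n) :
    (s i ↔ s v) ↔ κ i = κ v := by
  obtain ⟨w⟩ := hc.preconnected i v
  induction w with
  | nil => simp
  | @cons a b c h p ih =>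
    have h1 := hs a b h
    have h2 := hκ a b h
    have h3 : κ a = κ c ↔ ¬ (κ b = κ c) := by
      cases ha : κ a <;> cases hb : κ b <;> cases hc' : κ c <;> simp_all
    rw [h3, ← ih, h1]
    by_cases hb : s b <;> by_cases hc' : s c <;> simp [hb, hc']

/-- In a connected graph, every vertex different from `v` has a neighbour. -/
lemma exists_nbr {n : ℕ} (H : SimpleGraph (Fin n)) (hc : H.Connected) (v i : Fin n)
    (h : i ≠ v) : ∃ j, H.Adj i j := by
  obtain ⟨w⟩ := hc.preconnected i v
  cases w with
  | nil => exact absurd rfl h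
  | cons h _ => exact ⟨_, h⟩

/-- An injection between finite sets. -/
lemma exists_inj {α β : Type} (s : Finset α) (t : Finset β) (h : s.card ≤ t.card) :
    ∃ e : {i // i ∈ s} → β, Function.Injective e ∧ ∀ i, e i ∈ t := by
  refine ⟨fun i => ((t.equivFin).symm (Fin.castLE h (s.equivFin i))).1, ?_, ?_⟩
  · intro i j hij
    have h1 := Subtype.ext hij
    have h2 := (t.equivFin).symm.injective h1
    have h3 := Fin.castLE_injective h h2
    exact (s.equivFin).injective h3
  · intro i
    exact ((t.equivFin).symm _).2

/-- `K_{2a,M} → H` for large `M`, when `H` is bipartite with a class of size `a`. -/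
lemma host_arrows {n : ℕ} (H : SimpleGraph (Fin n)) (κ : Fin n → Bool)
    (hκ : ∀ i j, H.Adj i j → κ i ≠ κ j) (v : Fin n) (a : ℕ)
    (ha : (univ.filter (fun i => κ i ≠ κ v)).card = a) (M : ℕ) (hM : 2 ^ (2 * a) * n < M) :
    Arrows (host (2 * a) (2 * a + M)) H := by
  classical
  intro c hc
  let xe : Fin (2 * a) → Fin (2 * a + M) := Fin.castAdd M
  let ye : Fin M → Fin (2 * a + M) := Fin.natAdd (2 * a)
  let pat : Fin M → Finset (Fin (2 * a)) := fun y => univ.filter (fun x => c (xe x) (ye y) = true)
  have hcard : Fintype.card (Finset (Fin (2 * a))) * n < Fintype.card (Fin M) := by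
    rw [Fintype.card_finset, Fintype.card_fin, Fintype.card_fin]
    exact hM
  obtain ⟨S, hS⟩ := Fintype.exists_lt_card_fiber_of_mul_lt_card pat hcard
  set Y := univ.filter (fun y => pat y = S) with hY
  -- choose the colour
  obtain ⟨b, X, hXcard, hX⟩ : ∃ (b : Bool) (X : Finset (Fin (2 * a))), a ≤ X.card ∧
      ∀ x ∈ X, ∀ y ∈ Y, c (xe x) (ye y) = b := by
    by_cases h : a ≤ S.card
    · refine ⟨true, S, h, ?_⟩
      intro x hx y hy
      rw [hY, mem_filter] at hy
      rw [← hy.2] at hx
      simpa [pat] using hx
    · refine ⟨false, Sᶜ, ?_, ?_⟩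
      · rw [Finset.card_compl, Fintype.card_fin]
        omega
      · intro x hx y hy
        rw [hY, mem_filter] at hy
        rw [← hy.2] at hx
        simpa [pat] using hx
  -- the two injections
  have hA : (univ.filter (fun i => κ i ≠ κ v)).card ≤ X.card := by rw [ha]; exact hXcard
  have hB : (univ.filter (fun i => κ i = κ v)).card ≤ Y.card := by
    refine le_trans (Finset.card_le_univ _) ?_
    rw [Fintype.card_fin]
    exact hS.le
  obtain ⟨eA, heA, hAX⟩ := exists_inj _ _ hA
  obtain ⟨eB, heB, hBY⟩ := exists_inj _ _ hB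
  let f : Fin n → Fin (2 * a + M) := fun i =>
    if h : κ i = κ v then ye (eB ⟨i, by simp [h]⟩) else xe (eA ⟨i, by simp [h]⟩)
  have hfB : ∀ i (h : κ i = κ v), f i = ye (eB ⟨i, by simp [h]⟩) := by
    intro i h
    simp only [f, dif_pos h]
  have hfA : ∀ i (h : ¬ κ i = κ v), f i = xe (eA ⟨i, by simp [h]⟩) := by
    intro i h
    simp only [f, dif_neg h]
  have hxe : ∀ x : Fin (2 * a), (xe x).val < 2 * a := by
    intro x
    exact x.2
  have hye : ∀ y : Fin M, 2 * a ≤ (ye y).val := by
    intro y
    simp [ye]
  refine ⟨b, f, ?_, ?_⟩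
  · intro i j hij
    by_cases hi : κ i = κ v <;> by_cases hj : κ j = κ v
    · rw [hfB i hi, hfB j hj] at hij
      have h1 := Fin.natAdd_injective M (2 * a) hij
      have h2 := heB h1
      simpa using h2
    · rw [hfB i hi, hfA j hj] at hij
      have h1 := hye (eB ⟨i, by simp [hi]⟩)
      have h2 := hxe (eA ⟨j, by simp [hj]⟩)
      rw [hij] at h1
      omega
    · rw [hfA i hi, hfB j hj] at hij
      have h1 := hye (eB ⟨j, by simp [hj]⟩)
      have h2 := hxe (eA ⟨i, by simp [hi]⟩)
      rw [← hij] at h1
      omega
    · rw [hfA i hi, hfA j hj] at hij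
      have h1 := Fin.castAdd_injective (2 * a) M hij
      have h2 := heA h1
      simpa using h2
  · intro i j hij
    have hne := hκ i j hij
    by_cases hi : κ i = κ v
    · have hj : ¬ κ j = κ v := by
        intro hj
        exact hne (hi.trans hj.symm)
      rw [hfB i hi, hfA j hj]
      refine ⟨Or.inr ⟨hxe _, hye _⟩, ?_⟩
      rw [hc]
      exact hX _ (hAX _) _ (hBY _)
    · have hj : κ j = κ v := by
        cases h1 : κ i <;> cases h2 : κ j <;> cases h3 : κ v <;> simp_all
      rw [hfA i hi, hfB j hj]
      refine ⟨Or.inl ⟨hxe _, hye _⟩, ?_⟩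
      exact hX _ (hAX _) _ (hBY _)

/-- `K_{2a,M}` is not Ramsey for a connected bipartite graph both of whose classes have more
than `a` vertices; here it is stated for the pendant extension `H'`. -/
lemma host_not_arrows {n : ℕ} (H : SimpleGraph (Fin n)) (H' : SimpleGraph (Fin (n + 1)))
    (hconn : H.Connected)
    (hext : ∀ i j : Fin n, H'.Adj i.castSucc j.castSucc ↔ H.Adj i j)
    (v : Fin n) (hpend : ∀ i : Fin n, H'.Adj (Fin.last n) i.castSucc ↔ i = v)
    (κ : Fin n → Bool) (hκ : ∀ i j, H.Adj i j → κ i ≠ κ j)
    (a : ℕ) (ha : (univ.filter (fun i => κ i ≠ κ v)).card = a)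
    (hlt : a < (univ.filter (fun i => κ i = κ v)).card) (M : ℕ) :
    ¬ Arrows (host (2 * a) (2 * a + M)) H' := by
  classical
  intro harr
  obtain ⟨b, f, hf, hcopy⟩ := harr (fun x y => decide (x.val < a ∨ y.val < a))
    (by intro x y; simp only [or_comm])
  -- the colour class of colour `b` is covered by `a` vertices
  let T : Finset (Fin (2 * a + M)) := univ.filter (fun x => x.val < 2 * a ∧
    (x.val < a ↔ b = true))
  have hT : T.card ≤ a := by
    have h1 : T ⊆ Finset.univ.image (fun k : Fin a =>
        (if b = true then (⟨k.val, by omega⟩ : Fin (2 * a + M)) else ⟨a + k.val, by omega⟩)) := by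
      intro x hx
      simp only [T, mem_filter, mem_univ, true_and] at hx
      rw [mem_image]
      by_cases hb : b = true
      · refine ⟨⟨x.val, hx.2.mpr hb⟩, mem_univ _, ?_⟩
        rw [if_pos hb]
      · have hx2 : ¬ x.val < a := fun h => hb (hx.2.mp h)
        refine ⟨⟨x.val - a, by omega⟩, mem_univ _, ?_⟩
        rw [if_neg hb]
        apply Fin.ext
        simp only
        omega
    calc T.card ≤ _ := Finset.card_le_card h1
      _ ≤ (Finset.univ : Finset (Fin a)).card := Finset.card_image_le
      _ = a := by simp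
  -- an endpoint on the small side lies in `T`
  have hedge : ∀ i j, H'.Adj i j → (f i).val < 2 * a → f i ∈ T := by
    intro i j hij hi
    obtain ⟨h1, h2⟩ := hcopy i j hij
    simp only [T, mem_filter, mem_univ, true_and]
    refine ⟨hi, ?_⟩
    have hj : 2 * a ≤ (f j).val := by
      rcases h1 with h1 | h1
      · exact h1.2
      · omega
    have hj' : ¬ (f j).val < a := by omega
    rw [← h2]
    simp [hj']
  have hside : ∀ i j, H'.Adj i j → ((f i).val < 2 * a ↔ ¬ (f j).val < 2 * a) := by
    intro i j hij
    obtain ⟨h1, _⟩ := hcopy i j hij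
    rcases h1 with h1 | h1 <;> omega
  have hcol := two_col H hconn κ hκ (fun i => (f i.castSucc).val < 2 * a)
    (fun i j hij => hside _ _ ((hext i j).mpr hij)) v
  have hw : H'.Adj (Fin.last n) v.castSucc := (hpend v).mpr rfl
  have hnbr : ∀ i : Fin n, ∃ j, H'.Adj i.castSucc j := by
    intro i
    by_cases hi : i = v
    · subst hi
      exact ⟨_, hw.symm⟩
    · obtain ⟨j, hj⟩ := exists_nbr H hconn v i hi
      exact ⟨_, (hext i j).mpr hj⟩
  by_cases hv : (f v.castSucc).val < 2 * a
  · -- the class of `v` is mapped into `T`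
    have h1 : (univ.filter (fun i => κ i = κ v)).card ≤ T.card := by
      apply Finset.card_le_card_of_injOn (fun i => f i.castSucc)
      · intro i hi
        simp only [Finset.mem_coe, mem_filter, mem_univ, true_and] at hi
        have h2 := (hcol i).mpr hi
        obtain ⟨j, hj⟩ := hnbr i
        exact hedge _ _ hj (h2.mpr hv)
      · intro i _ j _ hij
        exact Fin.castSucc_injective n (hf hij)
    omega
  · -- the other class and the new vertex are mapped into `T`
    have hlast : f (Fin.last n) ∈ T := hedge _ _ hw ((hside _ _ hw).mpr hv)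
    have h1 : (insert (Fin.last n)
        ((univ.filter (fun i => κ i ≠ κ v)).image Fin.castSucc)).card ≤ T.card := by
      apply Finset.card_le_card_of_injOn f
      · intro i hi
        simp only [Finset.coe_insert, Finset.coe_image, Set.mem_insert_iff, Set.mem_image,
          Finset.mem_coe, mem_filter, mem_univ, true_and] at hi
        rcases hi with hi | ⟨k, hk, rfl⟩
        · rw [hi]
          exact hlast
        · have h2 : ¬ ((f k.castSucc).val < 2 * a ↔ (f v.castSucc).val < 2 * a) :=
            fun h => hk ((hcol k).mp h)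
          have h3 : (f k.castSucc).val < 2 * a := by
            by_contra h3
            exact h2 (iff_of_false h3 hv)
          obtain ⟨j, hj⟩ := hnbr k
          exact hedge _ _ hj h3
      · intro i _ j _ hij
        exact hf hij
    rw [Finset.card_insert_of_notMem, Finset.card_image_of_injective _
      (Fin.castSucc_injective n), ha] at h1
    · omega
    · intro h
      rw [mem_image] at h
      obtain ⟨k, _, hk⟩ := h
      exact (Fin.castSucc_lt_last k).ne hk

/-- **Main theorem.** Let `H` be a connected graph with a proper 2-colouring `κ`, and let `H'` be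
obtained from `H` by adding a pendant edge at a vertex `v` whose colour class is strictly larger
than the other class. Then some graph `F` is Ramsey for `H` but not for `H'`. -/
theorem result {n : ℕ} (H : SimpleGraph (Fin n)) (H' : SimpleGraph (Fin (n + 1)))
    (hconn : H.Connected)
    (hext : ∀ i j : Fin n, H'.Adj i.castSucc j.castSucc ↔ H.Adj i j)
    (v : Fin n) (hpend : ∀ i : Fin n, H'.Adj (Fin.last n) i.castSucc ↔ i = v)
    (κ : Fin n → Bool) (hκ : ∀ i j, H.Adj i j → κ i ≠ κ j)
    (hlarger : (univ.filter (fun i => κ i ≠ κ v)).card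
      < (univ.filter (fun i => κ i = κ v)).card) :
    ∃ (m : ℕ) (F : SimpleGraph (Fin m)), Arrows F H ∧ ¬ Arrows F H' :=
  ⟨_, _, host_arrows H κ hκ v _ rfl _ (Nat.lt_succ_self _),
    host_not_arrows H H' hconn hext v hpend κ hκ _ rfl hlarger _⟩

end Pool.Agent.Results.MP_3240be_co.LargerClass
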