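import Pool.Agent.Lib.MP_3240be_co.H56.Rig

/-!
# MP_3240be_co: rigid graphs, row R4 (the leaf lemma for sparse systems)
-/

set_option autoImplicit false

namespace MP3240R

open Finset Function
open MP3240SSL (TD Sys Bod)

section

variable {W MM Y : Type} {δ : MM → Y → W} {P : SimpleGraph Y} {part : W → Y}

theorem TD_range {S : Set MM} {Γ : W → W → Prop} {A : Set W} (h : TD δ P S Γ A) :
    ∀ m ∈ S, ∀ y, δ m y ∈ A := by
  induction h with
  | bod m =>
    intro m' hm' y
    rw [Set.mem_singleton_iff] at hm'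
    subst hm'
    exact ⟨y, rfl⟩
  | bip Γ A f h hA hs => exact fun m hm => absurd hm (Set.notMem_empty m)
  | glu a b h1 h2 hd hA hab ih1 ih2 =>
    rintro m (hm | hm) y
    · exact Or.inl (ih1 m hm y)
    · exact Or.inr (ih2 m hm y)

theorem TD_irr (hp : ∀ m y, part (δ m y) = y) {S : Set MM} {Γ : W → W → Prop} {A : Set W}
    (h : TD δ P S Γ A) : ∀ x, ¬ Γ x x := by
  induction h with
  | bod m =>
    rintro x ⟨t, t', h1, h2, h3⟩
    have h4 : t = t' := by
      rw [← hp m t, ← h1, h2, hp m t']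
    exact h3.ne h4
  | bip Γ A f h hA hs => exact fun x hx => h x x hx rfl
  | glu a b h1 h2 hd hA hab ih1 ih2 =>
    rintro x (h | h)
    · exact ih1 x h
    · exact ih2 x h

/-- An edge of `Γ2` with both ends in `A1` is an edge of `Γ1`. -/
theorem glu_edge {Γ1 Γ2 : W → W → Prop} {A1 A2 : Set W} {a b : W}
    (hA : ∀ x, x ∈ A1 → x ∈ A2 → x = a ∨ x = b) (hab : a = b ∨ (Γ1 a b ∧ Γ2 a b))
    (hs : ∀ x y, Γ1 x y → Γ1 y x) {x y : W} (hxy : x ≠ y) (hx1 : x ∈ A1) (hx2 : x ∈ A2)
    (hy1 : y ∈ A1) (hy2 : y ∈ A2) : Γ1 x y := by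
  rcases hA x hx1 hx2 with h | h <;> rcases hA y hy1 hy2 with h' | h'
  · exact absurd (h.trans h'.symm) hxy
  · rcases hab with h3 | h3
    · exact absurd (h.trans (h3.trans h'.symm)) hxy
    · rw [h, h']
      exact h3.1
  · rcases hab with h3 | h3
    · exact absurd (h.trans (h3.symm.trans h'.symm)) hxy
    · rw [h, h']
      exact hs _ _ h3.1
  · exact absurd (h.trans h'.symm) hxy

/-- An edge with both ends in a body is an edge of the body. -/
theorem TD_bod (hp : ∀ m y, part (δ m y) = y) {S : Set MM} {Γ : W → W → Prop} {A : Set W}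
    (h : TD δ P S Γ A) : ∀ m ∈ S, ∀ x y, Γ x y → x ∈ Set.range (δ m) → y ∈ Set.range (δ m) →
    Bod δ P m x y := by
  induction h with
  | bod m =>
    intro m' hm' x y hxy _ _
    rw [Set.mem_singleton_iff] at hm'
    subst hm'
    exact hxy
  | bip Γ A f h hA hs => exact fun m hm => absurd hm (Set.notMem_empty m)
  | @glu S1 S2 Γ1 Γ2 A1 A2 a b h1 h2 hd hA hab ih1 ih2 =>
    rintro m (hm | hm) x y hxy hx hy
    · have hx1 : x ∈ A1 := by
        obtain ⟨t, rfl⟩ := hx
        exact TD_range h1 m hm t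
      have hy1 : y ∈ A1 := by
        obtain ⟨t, rfl⟩ := hy
        exact TD_range h1 m hm t
      refine ih1 m hm x y ?_ hx hy
      rcases hxy with h | h
      · exact h
      · have hne : x ≠ y := by
          rintro rfl
          exact TD_irr hp h2 _ h
        exact glu_edge hA hab h1.symm hne hx1 (h2.mem _ _ h).1 hy1 (h2.mem _ _ h).2
    · have hx1 : x ∈ A2 := by
        obtain ⟨t, rfl⟩ := hx
        exact TD_range h2 m hm t
      have hy1 : y ∈ A2 := by
        obtain ⟨t, rfl⟩ := hy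
        exact TD_range h2 m hm t
      refine ih2 m hm x y ?_ hx hy
      rcases hxy with h | h
      · have hne : x ≠ y := by
          rintro rfl
          exact TD_irr hp h1 _ h
        exact glu_edge (fun x h3 h4 => hA x h4 h3) (hab.imp id And.symm) h2.symm hne hx1 (h1.mem _ _ h).1 hy1
          (h1.mem _ _ h).2
      · exact h

/-- Two vertices are linked. -/
def Lnk (δ : MM → Y → W) (S : Set MM) (Γ : W → W → Prop) (x y : W) : Prop :=
  Γ x y ∨ ∃ m ∈ S, x ∈ Set.range (δ m) ∧ y ∈ Set.range (δ m)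

/-- Three pairwise linked vertices lie in a body. -/
theorem TD_tri {S : Set MM} {Γ : W → W → Prop} {A : Set W} (h : TD δ P S Γ A) :
    ∀ x y z, x ≠ y → y ≠ z → x ≠ z → Lnk δ S Γ x y → Lnk δ S Γ y z → Lnk δ S Γ x z →
    ∃ m ∈ S, x ∈ Set.range (δ m) ∧ y ∈ Set.range (δ m) ∧ z ∈ Set.range (δ m) := by
  induction h with
  | bod m =>
    have key : ∀ x y, Lnk δ {m} (Bod δ P m) x y → x ∈ Set.range (δ m) ∧ y ∈ Set.range (δ m) := by
      rintro x y (⟨t, t', rfl, rfl, _⟩ | ⟨m', hm', h1⟩)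
      · exact ⟨⟨t, rfl⟩, ⟨t', rfl⟩⟩
      · rw [Set.mem_singleton_iff] at hm'
        subst hm'
        exact h1
    intro x y z _ _ _ h1 h2 _
    exact ⟨m, Set.mem_singleton m, (key _ _ h1).1, (key _ _ h1).2, (key _ _ h2).2⟩
  | bip Γ A f h hA hs =>
    intro x y z _ _ _ h1 h2 h3
    have key : ∀ x y, Lnk δ ∅ Γ x y → f x ≠ f y := by
      rintro x y (h1 | ⟨m, hm, _⟩)
      · exact h x y h1
      · exact absurd hm (Set.notMem_empty m)
    have h4 := key _ _ h1
    have h5 := key _ _ h2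
    have h6 := key _ _ h3
    exfalso
    revert h4 h5 h6
    cases f x <;> cases f y <;> cases f z <;> simp
  | @glu S1 S2 Γ1 Γ2 A1 A2 a b h1 h2 hd hA hab ih1 ih2 =>
    have mem1 : ∀ x y, Lnk δ S1 Γ1 x y → x ∈ A1 ∧ y ∈ A1 := by
      rintro x y (h | ⟨m, hm, ⟨t, rfl⟩, ⟨t', rfl⟩⟩)
      · exact h1.mem _ _ h
      · exact ⟨TD_range h1 m hm t, TD_range h1 m hm t'⟩
    have mem2 : ∀ x y, Lnk δ S2 Γ2 x y → x ∈ A2 ∧ y ∈ A2 := by
      rintro x y (h | ⟨m, hm, ⟨t, rfl⟩, ⟨t', rfl⟩⟩)
      · exact h2.mem _ _ h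
      · exact ⟨TD_range h2 m hm t, TD_range h2 m hm t'⟩
    have spl : ∀ x y, Lnk δ (S1 ∪ S2) (fun x y => Γ1 x y ∨ Γ2 x y) x y →
        Lnk δ S1 Γ1 x y ∨ Lnk δ S2 Γ2 x y := by
      rintro x y ((h | h) | ⟨m, hm | hm, h⟩)
      · exact Or.inl (Or.inl h)
      · exact Or.inr (Or.inl h)
      · exact Or.inl (Or.inr ⟨m, hm, h⟩)
      · exact Or.inr (Or.inr ⟨m, hm, h⟩)
    have to1 : ∀ x y, x ≠ y → x ∈ A1 → y ∈ A1 →
        Lnk δ (S1 ∪ S2) (fun x y => Γ1 x y ∨ Γ2 x y) x y → Lnk δ S1 Γ1 x y := by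
      intro x y hxy hx hy h
      rcases spl x y h with h | h
      · exact h
      · exact Or.inl (glu_edge hA hab h1.symm hxy hx (mem2 _ _ h).1 hy (mem2 _ _ h).2)
    have to2 : ∀ x y, x ≠ y → x ∈ A2 → y ∈ A2 →
        Lnk δ (S1 ∪ S2) (fun x y => Γ1 x y ∨ Γ2 x y) x y → Lnk δ S2 Γ2 x y := by
      intro x y hxy hx hy h
      rcases spl x y h with h | h
      · exact Or.inl (glu_edge (fun x h3 h4 => hA x h4 h3) (hab.imp id And.symm) h2.symm hxy hx
          (mem1 _ _ h).1 hy (mem1 _ _ h).2)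
      · exact h
    -- every pair is in `A1` or in `A2`
    have pair : ∀ x y, Lnk δ (S1 ∪ S2) (fun x y => Γ1 x y ∨ Γ2 x y) x y →
        (x ∈ A1 ∧ y ∈ A1) ∨ (x ∈ A2 ∧ y ∈ A2) := by
      intro x y h
      rcases spl x y h with h | h
      · exact Or.inl (mem1 _ _ h)
      · exact Or.inr (mem2 _ _ h)
    intro x y z hxy hyz hxz l1 l2 l3
    have hall : (x ∈ A1 ∧ y ∈ A1 ∧ z ∈ A1) ∨ (x ∈ A2 ∧ y ∈ A2 ∧ z ∈ A2) := by
      rcases pair _ _ l1 with h | h <;> rcases pair _ _ l2 with h' | h' <;>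
        rcases pair _ _ l3 with h'' | h'' <;> tauto
    rcases hall with ⟨hx, hy, hz⟩ | ⟨hx, hy, hz⟩
    · obtain ⟨m, hm, h⟩ := ih1 x y z hxy hyz hxz (to1 _ _ hxy hx hy l1) (to1 _ _ hyz hy hz l2)
        (to1 _ _ hxz hx hz l3)
      exact ⟨m, Or.inl hm, h⟩
    · obtain ⟨m, hm, h⟩ := ih2 x y z hxy hyz hxz (to2 _ _ hxy hx hy l1) (to2 _ _ hyz hy hz l2)
        (to2 _ _ hxz hx hz l3)
      exact ⟨m, Or.inr hm, h⟩

/-! ## The induction -/

variable {V : Type} {n : ℕ}

/-- The kernel is a star inside `A`. -/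
def SK (c : ℕ) (Γ : W → W → Prop) (A : Set W) (κ : Finset W) : Prop :=
  κ.card ≤ c ∧ ((∀ x ∈ κ, x ∉ A) ∨ ∃ z ∈ κ, z ∈ A ∧ ∀ x ∈ κ, x ∈ A → x = z ∨ Γ z x)

/-- The hypotheses of the induction. -/
structure LH (c : ℕ) (M : SimpleGraph V) (δ : MM → Y → W) (F : V → W) (AA : Set (Finset V))
    (bd : Finset V → MM) (S : Set MM) (Γ : W → W → Prop) (A : Set W) (κ : Finset W) : Prop where
  sk : SK c Γ A κ
  adj : ∀ u v, M.Adj u v → F u ∈ A → F v ∈ A → Γ (F u) (F v)
  cov : ∀ u, F u ∈ A → F u ∉ κ → ∃ C ∈ AA, u ∈ C ∧ bd C ∈ S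
  ne : ∃ C ∈ AA, bd C ∈ S

/-- The conclusion of the induction. -/
def LG (H : SimpleGraph (Fin n)) (e : Y → Fin n) (M : SimpleGraph V) (δ : MM → Y → W) (F : V → W)
    (AA : Set (Finset V)) (bd : Finset V → MM) (S : Set MM) (A : Set W) (κ : Finset W) : Prop :=
  ∃ m ∈ S, (∃ C ∈ AA, bd C = m) ∧ ∃ Pi : Finset (Fin n), (Star H Pi ∧ Pi.card ≤ 2) ∧
    (∀ y, δ m y ∈ κ → e y ∈ Pi) ∧
    (∀ y u v, F u = δ m y → F v ∈ A → F v ∉ Set.range (δ m) → M.Adj u v → e y ∈ Pi) ∧
    (∀ y u, ∀ C ∈ AA, bd C ∈ S → bd C ≠ m → u ∈ C → F u = δ m y → e y ∈ Pi)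

/-- One side of a gluing. -/
theorem side {c : ℕ} {H : SimpleGraph (Fin n)} {e : Y → Fin n} {M : SimpleGraph V} {F : V → W}
    (hF : Injective F) {AA : Set (Finset V)} {bd : Finset V → MM}
    (hbd : ∀ C ∈ AA, ∀ u ∈ C, F u ∈ Set.range (δ (bd C)))
    {S1 S2 : Set MM} {Γ1 Γ2 : W → W → Prop} {A1 A2 : Set W} {a b : W}
    (h1 : TD δ P S1 Γ1 A1) (h2 : TD δ P S2 Γ2 A2)
    (hA : ∀ x, x ∈ A1 → x ∈ A2 → x = a ∨ x = b) (hab : a = b ∨ (Γ1 a b ∧ Γ2 a b))
    {κ κ1 : Finset W}
    (hadj : ∀ u v, M.Adj u v → F u ∈ A1 ∪ A2 → F v ∈ A1 ∪ A2 → Γ1 (F u) (F v) ∨ Γ2 (F u) (F v))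
    (hcov : ∀ u, F u ∈ A1 ∪ A2 → F u ∉ κ → ∃ C ∈ AA, u ∈ C ∧ bd C ∈ S1 ∪ S2)
    (hsk : SK c Γ1 A1 κ1) (hκ : ∀ x ∈ κ, x ∈ A1 → x ∈ κ1) (hne : ∃ C ∈ AA, bd C ∈ S1)
    (hk : (a ∈ κ1 ∧ b ∈ κ1) ∨
      ((∀ x ∈ κ, x ∈ A1 ∪ A2 → x ∈ A1) ∧ ∀ C ∈ AA, bd C ∈ S1 ∪ S2 → bd C ∈ S1))
    (ih : LH c M δ F AA bd S1 Γ1 A1 κ1 → LG H e M δ F AA bd S1 A1 κ1) :
    LG H e M δ F AA bd (S1 ∪ S2) (A1 ∪ A2) κ := by
  -- vertices of `A2` outside `A1`
  obtain ⟨m, hm, hC, Pi, hst, c1, c2, c3⟩ := ih ⟨hsk, by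
      intro u v huv hu hv
      rcases hadj u v huv (Or.inl hu) (Or.inl hv) with h | h
      · exact h
      · exact glu_edge hA hab h1.symm (fun h3 => huv.ne (hF h3)) hu (h2.mem _ _ h).1 hv
          (h2.mem _ _ h).2, by
      intro u hu hκu
      obtain ⟨C, hC, huC, hb⟩ := hcov u (Or.inl hu) (fun h => hκu (hκ _ h hu))
      rcases hb with hb | hb
      · exact ⟨C, hC, huC, hb⟩
      · rcases hk with ⟨ha, hb'⟩ | ⟨-, hk2⟩
        · exfalso
          obtain ⟨t, ht⟩ := hbd C hC u huC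
          have h3 : F u ∈ A2 := by
            rw [← ht]
            exact TD_range h2 _ hb t
          rcases hA _ hu h3 with h4 | h4
          · exact hκu (h4 ▸ ha)
          · exact hκu (h4 ▸ hb')
        · exact ⟨C, hC, huC, hk2 C hC (Or.inr hb)⟩, hne⟩
  refine ⟨m, Or.inl hm, hC, Pi, hst, ?_, ?_, ?_⟩
  · intro y hy
    exact c1 y (hκ _ hy (TD_range h1 m hm y))
  · intro y u v hu hv hvm huv
    have hu1 : F u ∈ A1 := by
      rw [hu]
      exact TD_range h1 m hm y
    by_cases hv1 : F v ∈ A1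
    · exact c2 y u v hu hv1 hvm huv
    · rcases hadj u v huv (Or.inl hu1) hv with h | h
      · exact absurd (h1.mem _ _ h).2 hv1
      · rcases hk with ⟨ha, hb'⟩ | ⟨hk1, hk2⟩
        · apply c1
          rw [← hu]
          rcases hA _ hu1 (h2.mem _ _ h).1 with h4 | h4
          · exact h4 ▸ ha
          · exact h4 ▸ hb'
        · exfalso
          by_cases hvκ : F v ∈ κ
          · exact hv1 (hk1 _ hvκ hv)
          · obtain ⟨C, hC, hvC, hb⟩ := hcov v hv hvκ
            obtain ⟨t, ht⟩ := hbd C hC v hvC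
            apply hv1
            rw [← ht]
            exact TD_range h1 _ (hk2 C hC hb) t
  · intro y u C hC hb hbm huC hu
    by_cases hb1 : bd C ∈ S1
    · exact c3 y u C hC hb1 hbm huC hu
    · have hb2 : bd C ∈ S2 := hb.resolve_left hb1
      rcases hk with ⟨ha, hb'⟩ | ⟨hk1, hk2⟩
      · apply c1
        rw [← hu]
        have hu1 : F u ∈ A1 := by
          rw [hu]
          exact TD_range h1 m hm y
        obtain ⟨t, ht⟩ := hbd C hC u huC
        have h3 : F u ∈ A2 := by
          rw [← ht]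
          exact TD_range h2 _ hb2 t
        rcases hA _ hu1 h3 with h4 | h4
        · exact h4 ▸ ha
        · exact h4 ▸ hb'
      · exact absurd (hk2 C hC hb) hb1

theorem LG_union_comm {H : SimpleGraph (Fin n)} {e : Y → Fin n} {M : SimpleGraph V} {F : V → W}
    {AA : Set (Finset V)} {bd : Finset V → MM} {S1 S2 : Set MM} {A1 A2 : Set W} {κ : Finset W}
    (h : LG H e M δ F AA bd (S2 ∪ S1) (A2 ∪ A1) κ) : LG H e M δ F AA bd (S1 ∪ S2) (A1 ∪ A2) κ := by
  rw [Set.union_comm S1 S2, Set.union_comm A1 A2]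
  exact h

/-- The induction over tree graphs. -/
theorem leaf_td {H : SimpleGraph (Fin n)} {e : Y → Fin n}
    (he : ∀ x y, P.Adj x y → H.Adj (e x) (e y)) (h0 : Fin n) {M : SimpleGraph V} {F : V → W}
    (hF : Injective F) {AA : Set (Finset V)} {bd : Finset V → MM}
    (hbd : ∀ C ∈ AA, ∀ u ∈ C, F u ∈ Set.range (δ (bd C)))
    (hp : ∀ m y, part (δ m y) = y) {S : Set MM} {Γ : W → W → Prop} {A : Set W}
    (h : TD δ P S Γ A) : ∀ κ, LH 2 M δ F AA bd S Γ A κ → LG H e M δ F AA bd S A κ := by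
  classical
  induction h with
  | bod m =>
    intro κ hκ
    obtain ⟨C, hC, hCm⟩ := hκ.ne
    refine ⟨m, Set.mem_singleton m, ⟨C, hC, hCm⟩, ?_⟩
    obtain ⟨hcard, hs⟩ := hκ.sk
    have c3 : ∀ (Pi : Finset (Fin n)), ∀ y u, ∀ C ∈ AA, bd C ∈ ({m} : Set MM) → bd C ≠ m →
        u ∈ C → F u = δ m y → e y ∈ Pi := by
      intro Pi y u C _ h1 h2
      exact absurd h1 h2
    have c2 : ∀ (Pi : Finset (Fin n)), ∀ y u v, F u = δ m y → F v ∈ Set.range (δ m) →
        F v ∉ Set.range (δ m) → M.Adj u v → e y ∈ Pi := by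
      intro Pi y u v _ h1 h2
      exact absurd h1 h2
    rcases hs with hs | ⟨z, hz, hzA, hs⟩
    · refine ⟨{h0}, ⟨⟨by simp, h0, Finset.mem_singleton_self _, ?_⟩, by simp⟩, ?_, c2 _, c3 _⟩
      · intro x hx
        exact Or.inl (Finset.mem_singleton.mp hx)
      · intro y hy
        exact absurd ⟨y, rfl⟩ (hs _ hy)
    · obtain ⟨yz, rfl⟩ := hzA
      have hc2 := (Finset.card_image_le (s := κ.filter (fun x => x ∈ Set.range (δ m)))
        (f := fun x => e (part x))).trans ((Finset.card_filter_le _ _).trans hcard)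
      refine ⟨(κ.filter (fun x => x ∈ Set.range (δ m))).image (fun x => e (part x)),
        ⟨⟨hc2.trans (by norm_num), ?_⟩, hc2⟩, ?_, c2 _, c3 _⟩
      · refine ⟨e yz, ?_, ?_⟩
        · exact Finset.mem_image.mpr ⟨δ m yz, Finset.mem_filter.mpr ⟨hz, yz, rfl⟩, by rw [hp]⟩
        · intro x hx
          obtain ⟨w, hw, rfl⟩ := Finset.mem_image.mp hx
          obtain ⟨hw1, yw, rfl⟩ := Finset.mem_filter.mp hw
          rw [hp]
          rcases hs _ hw1 ⟨yw, rfl⟩ with h | ⟨t, t', h1, h2, h3⟩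
          · left
            rw [← hp m yw, h, hp]
          · right
            have h4 : yz = t := by rw [← hp m yz, h1, hp]
            have h5 : yw = t' := by rw [← hp m yw, h2, hp]
            rw [h4, h5]
            exact he _ _ h3
      · intro y hy
        exact Finset.mem_image.mpr ⟨δ m y, Finset.mem_filter.mpr ⟨hy, y, rfl⟩, by rw [hp]⟩
  | bip Γ A f h hA hs =>
    intro κ hκ
    obtain ⟨C, hC, hCm⟩ := hκ.ne
    exact absurd hCm (Set.notMem_empty _)
  | @glu S1 S2 Γ1 Γ2 A1 A2 a b h1 h2 hd hA hab ih1 ih2 =>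
    intro κ hκ
    have hA' : ∀ x, x ∈ A2 → x ∈ A1 → x = a ∨ x = b := fun x h3 h4 => hA x h4 h3
    have hab' : a = b ∨ (Γ2 a b ∧ Γ1 a b) := hab.imp id And.symm
    have hadj' : ∀ u v, M.Adj u v → F u ∈ A2 ∪ A1 → F v ∈ A2 ∪ A1 →
        Γ2 (F u) (F v) ∨ Γ1 (F u) (F v) :=
      fun u v huv hu hv => (hκ.adj u v huv hu.symm hv.symm).symm
    have hcov' : ∀ u, F u ∈ A2 ∪ A1 → F u ∉ κ → ∃ C ∈ AA, u ∈ C ∧ bd C ∈ S2 ∪ S1 := by
      intro u hu hk
      obtain ⟨C, hC, huC, hb⟩ := hκ.cov u hu.symm hk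
      exact ⟨C, hC, huC, hb.symm⟩
    -- the kernel `{a, b}` in one side
    have skab : ∀ (Γ : W → W → Prop) (B : Set W), (∀ x y, Γ x y → x ∈ B ∧ y ∈ B) →
        (a = b ∨ Γ a b) → SK 2 Γ B {a, b} := by
      intro Γ B hm h3
      refine ⟨Finset.card_le_two, ?_⟩
      rcases h3 with h3 | h3
      · by_cases haB : a ∈ B
        · right
          refine ⟨a, by simp, haB, ?_⟩
          intro x hx _
          rw [Finset.mem_insert, Finset.mem_singleton] at hx
          rcases hx with hx | hx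
          · exact Or.inl hx
          · exact Or.inl (hx.trans h3.symm)
        · left
          intro x hx hxB
          rw [Finset.mem_insert, Finset.mem_singleton] at hx
          rcases hx with hx | hx
          · exact haB (hx ▸ hxB)
          · exact haB ((h3.trans hx.symm) ▸ hxB)
      · right
        refine ⟨a, by simp, (hm _ _ h3).1, ?_⟩
        intro x hx _
        rw [Finset.mem_insert, Finset.mem_singleton] at hx
        rcases hx with hx | hx
        · exact Or.inl hx
        · exact Or.inr (hx ▸ h3)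
    by_cases hk1 : ∀ x ∈ κ, x ∈ A1 ∪ A2 → x ∈ A1
    · by_cases hc : ∀ C ∈ AA, bd C ∈ S1 ∪ S2 → bd C ∈ S1
      · -- everything in the first part
        refine side hF hbd h1 h2 hA hab hκ.adj hκ.cov (κ1 := κ) ?_ (fun x hx _ => hx) ?_
          (Or.inr ⟨hk1, hc⟩) (ih1 κ)
        · refine ⟨hκ.sk.1, ?_⟩
          rcases hκ.sk.2 with h3 | ⟨z, hz, hzA, h3⟩
          · exact Or.inl (fun x hx hx1 => h3 x hx (Or.inl hx1))
          · right
            refine ⟨z, hz, hk1 z hz hzA, ?_⟩
            intro x hx hx1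
            rcases h3 x hx (Or.inl hx1) with h4 | h4
            · exact Or.inl h4
            · by_cases hxz : x = z
              · exact Or.inl hxz
              · right
                rcases h4 with h4 | h4
                · exact h4
                · exact glu_edge hA hab h1.symm (fun h5 => hxz h5.symm) (hk1 z hz hzA)
                    (h2.mem _ _ h4).1 hx1 (h2.mem _ _ h4).2
        · obtain ⟨C, hC, hb⟩ := hκ.ne
          exact ⟨C, hC, hc C hC hb⟩
      · push Not at hc
        obtain ⟨C, hC, hb, hb1⟩ := hc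
        have hb2 : bd C ∈ S2 := hb.resolve_left hb1
        refine LG_union_comm (side hF hbd h2 h1 hA' hab' hadj' hcov' (κ1 := {a, b})
          (skab Γ2 A2 h2.mem (hab.imp id And.right)) ?_ ⟨C, hC, hb2⟩ (Or.inl (by simp)) (ih2 _))
        intro x hx hx2
        rw [Finset.mem_insert, Finset.mem_singleton]
        exact hA x (hk1 x hx (Or.inr hx2)) hx2
    · by_cases hk2 : ∀ x ∈ κ, x ∈ A1 ∪ A2 → x ∈ A2
      · by_cases hc : ∀ C ∈ AA, bd C ∈ S1 ∪ S2 → bd C ∈ S2
        · refine LG_union_comm (side hF hbd h2 h1 hA' hab' hadj' hcov' (κ1 := κ) ?_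
            (fun x hx _ => hx) ?_ (Or.inr ⟨fun x hx h3 => hk2 x hx h3.symm,
              fun C hC hb => hc C hC hb.symm⟩) (ih2 κ))
          · refine ⟨hκ.sk.1, ?_⟩
            rcases hκ.sk.2 with h3 | ⟨z, hz, hzA, h3⟩
            · exact Or.inl (fun x hx hx1 => h3 x hx (Or.inr hx1))
            · right
              refine ⟨z, hz, hk2 z hz hzA, ?_⟩
              intro x hx hx1
              rcases h3 x hx (Or.inr hx1) with h4 | h4
              · exact Or.inl h4
              · by_cases hxz : x = z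
                · exact Or.inl hxz
                · right
                  rcases h4 with h4 | h4
                  · exact glu_edge hA' hab' h2.symm (fun h5 => hxz h5.symm) (hk2 z hz hzA)
                      (h1.mem _ _ h4).1 hx1 (h1.mem _ _ h4).2
                  · exact h4
          · obtain ⟨C, hC, hb⟩ := hκ.ne
            exact ⟨C, hC, hc C hC hb⟩
        · push Not at hc
          obtain ⟨C, hC, hb, hb1⟩ := hc
          have hb2 : bd C ∈ S1 := hb.resolve_right hb1
          refine side hF hbd h1 h2 hA hab hκ.adj hκ.cov (κ1 := {a, b})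
            (skab Γ1 A1 h1.mem (hab.imp id And.left)) ?_ ⟨C, hC, hb2⟩ (Or.inl (by simp)) (ih1 _)
          intro x hx hx1
          rw [Finset.mem_insert, Finset.mem_singleton]
          exact hA x hx1 (hk2 x hx (Or.inl hx1))
      · -- the kernel is on both sides
        push Not at hk1 hk2
        obtain ⟨x, hx, hxA, hx1⟩ := hk1
        obtain ⟨x', hx', hxA', hx2'⟩ := hk2
        have hx2 : x ∈ A2 := hxA.resolve_left hx1
        have hx1' : x' ∈ A1 := hxA'.resolve_right hx2'
        obtain ⟨hcard, hs⟩ := hκ.sk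
        rcases hs with hs | ⟨z, hz, hzA, hs⟩
        · exact absurd hxA (hs x hx)
        have hne : x ≠ x' := fun h => hx1 (h ▸ hx1')
        have hxz : x ≠ z := by
          rintro rfl
          rcases hs x' hx' hxA' with h3 | h3 | h3
          · exact hne h3.symm
          · exact hx1 (h1.mem _ _ h3).1
          · exact hx2' (h2.mem _ _ h3).2
        have hxz' : x' ≠ z := by
          rintro rfl
          rcases hs x hx hxA with h3 | h3 | h3
          · exact hne h3
          · exact hx1 (h1.mem _ _ h3).2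
          · exact hx2' (h2.mem _ _ h3).1
        have e2 : Γ2 z x := by
          rcases hs x hx hxA with h3 | h3 | h3
          · exact absurd h3 hxz
          · exact absurd (h1.mem _ _ h3).2 hx1
          · exact h3
        have e1 : Γ1 z x' := by
          rcases hs x' hx' hxA' with h3 | h3 | h3
          · exact absurd h3 hxz'
          · exact h3
          · exact absurd (h2.mem _ _ h3).2 hx2'
        have hz1 := (h1.mem _ _ e1).1
        have hz2 := (h2.mem _ _ e2).1
        have h4 : ({x, x', z} : Finset W) ⊆ κ := by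
          intro w hw
          simp only [Finset.mem_insert, Finset.mem_singleton] at hw
          rcases hw with rfl | rfl | rfl
          · exact hx
          · exact hx'
          · exact hz
        have h5 := Finset.card_le_card h4
        rw [Finset.card_insert_of_notMem (by simp [hne, hxz]),
          Finset.card_insert_of_notMem (by simp [hxz']), Finset.card_singleton] at h5
        omega

/-- Two bodies with two common vertices are equal. -/
theorem two_eq (hp : ∀ m y, part (δ m y) = y)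
    (hlin : ∀ m m', m ≠ m' → ∀ y y', δ m y = δ m' y → δ m y' = δ m' y' → y = y') {m m' : MM}
    {x x' : W} (hx : x ≠ x') (h1 : x ∈ Set.range (δ m)) (h2 : x' ∈ Set.range (δ m))
    (h3 : x ∈ Set.range (δ m')) (h4 : x' ∈ Set.range (δ m')) : m = m' := by
  by_contra hm
  obtain ⟨y, hy⟩ := h1
  obtain ⟨y2, hy2⟩ := h2
  obtain ⟨y', hy'⟩ := h3
  obtain ⟨y2', hy2'⟩ := h4
  have e1 : y = y' := by rw [← hp m y, hy, ← hy', hp]
  have e2 : y2 = y2' := by rw [← hp m y2, hy2, ← hy2', hp]
  subst e1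
  subst e2
  have h5 := hlin m m' hm y y2 (hy.trans hy'.symm) (hy2.trans hy2'.symm)
  rw [h5] at hy
  exact hx (hy.symm.trans hy2)

/-- The case of a kernel on both sides of a gluing, all vertices of the first side in a body. -/
theorem endc {H : SimpleGraph (Fin n)} {e : Y → Fin n}
    (he : ∀ x y, P.Adj x y → H.Adj (e x) (e y)) {M : SimpleGraph V} {F : V → W}
    (hF : Injective F) {AA : Set (Finset V)} {bd : Finset V → MM}
    (hbd : ∀ C ∈ AA, ∀ u ∈ C, F u ∈ Set.range (δ (bd C)))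
    (hp : ∀ m y, part (δ m y) = y)
    (hlin : ∀ m m', m ≠ m' → ∀ y y', δ m y = δ m' y → δ m y' = δ m' y' → y = y')
    (htwo : ∀ C ∈ AA, ∃ u ∈ C, ∃ v ∈ C, u ≠ v)
    {S1 S2 : Set MM} {Γ1 Γ2 : W → W → Prop} {A1 A2 : Set W} {a b : W}
    (h1 : TD δ P S1 Γ1 A1) (h2 : TD δ P S2 Γ2 A2) (hd : ∀ m, m ∈ S1 → m ∉ S2)
    (hA : ∀ x, x ∈ A1 → x ∈ A2 → x = a ∨ x = b) (hab : a = b ∨ (Γ1 a b ∧ Γ2 a b))
    {κ : Finset W} {z : V} {x x' : W}
    (hadj : ∀ u v, M.Adj u v → F u ∈ A1 ∪ A2 → F v ∈ A1 ∪ A2 → Γ1 (F u) (F v) ∨ Γ2 (F u) (F v))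
    (hcov : ∀ u, F u ∈ A1 ∪ A2 → F u ∉ κ → ∃ C ∈ AA, u ∈ C ∧ bd C ∈ S1 ∪ S2)
    (hall : ∀ y ∈ κ, y = x ∨ y = x' ∨ y = F z) (hx1 : x ∉ A1)
    (e1 : Γ1 (F z) x') (e2 : Γ2 (F z) x)
    (hc1 : ∃ C ∈ AA, bd C ∈ S1) {m : MM} (hm : m ∈ S1)
    (hall1 : ∀ u, F u ∈ A1 → F u ∈ Set.range (δ m))
    (hc2 : (∀ C ∈ AA, bd C ∉ S2) ∨ ∃ m' ∈ S2, ∀ u, F u ∈ A2 → F u ∈ Set.range (δ m')) :
    LG H e M δ F AA bd (S1 ∪ S2) (A1 ∪ A2) κ := by
  classical
  have hz1 := (h1.mem _ _ e1).1
  have hz2 := (h2.mem _ _ e2).1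
  have hzm := hall1 z hz1
  -- cells of the first side are in `m`
  have cell1 : ∀ C ∈ AA, bd C ∈ S1 → bd C = m := by
    intro C hC hb
    obtain ⟨u, hu, v, hv, huv⟩ := htwo C hC
    have hmem : ∀ w ∈ C, F w ∈ A1 := by
      intro w hw
      obtain ⟨t, ht⟩ := hbd C hC w hw
      rw [← ht]
      exact TD_range h1 _ hb t
    exact two_eq hp hlin (fun h => huv (hF h)) (hbd C hC u hu) (hbd C hC v hv)
      (hall1 u (hmem u hu)) (hall1 v (hmem v hv))
  -- a vertex of both sides is `z`, if the second side is a body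
  have both : ∀ u, F u ∈ A1 → F u ∈ A2 → (∃ m' ∈ S2, ∀ u, F u ∈ A2 → F u ∈ Set.range (δ m')) →
      u = z := by
    rintro u hu1 hu2 ⟨m', hm', h3⟩
    by_contra huz
    have h4 := two_eq hp hlin (fun h => huz (hF h)) (hall1 u hu1) hzm (h3 u hu2) (h3 z hz2)
    exact hd m hm (h4 ▸ hm')
  obtain ⟨C, hC, hb⟩ := hc1
  obtain ⟨yz, hyz⟩ := hzm
  have hpz : part (F z) = yz := by rw [← hyz, hp]
  have hxx : x' ∈ Set.range (δ m) → H.Adj (e yz) (e (part x')) := by
    intro h3
    obtain ⟨t, t', h4, h5, h6⟩ := TD_bod hp h1 m hm _ _ e1 ⟨yz, hyz⟩ h3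
    rw [h5, hp]
    have h7 : yz = t := by rw [← hpz, h4, hp]
    rw [h7]
    exact he _ _ h6
  -- the set `Π`
  set Pi : Finset (Fin n) := if x' ∈ Set.range (δ m) then {e yz, e (part x')} else {e yz}
    with hPi
  have hP1 : e yz ∈ Pi := by
    rw [hPi]
    split_ifs <;> simp
  have hP2 : x' ∈ Set.range (δ m) → e (part x') ∈ Pi := by
    intro h3
    rw [hPi, if_pos h3]
    simp
  have hPc : Pi.card ≤ 2 := by
    rw [hPi]
    split_ifs
    · exact Finset.card_le_two
    · simp
  refine ⟨m, Or.inl hm, ⟨C, hC, cell1 C hC hb⟩, Pi, ⟨⟨hPc.trans (by norm_num), e yz, hP1, ?_⟩,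
    hPc⟩, ?_, ?_, ?_⟩
  · intro w hw
    rw [hPi] at hw
    split_ifs at hw with h3
    · rw [Finset.mem_insert, Finset.mem_singleton] at hw
      rcases hw with hw | hw
      · exact Or.inl hw
      · rw [hw]
        exact Or.inr (hxx h3)
    · exact Or.inl (Finset.mem_singleton.mp hw)
  · intro y hy
    have hy1 : δ m y ∈ A1 := TD_range h1 m hm y
    rcases hall _ hy with h3 | h3 | h3
    · exact absurd (h3 ▸ hy1) hx1
    · have h4 : e (part x') = e y := by rw [← h3, hp]
      rw [← h4]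
      exact hP2 ⟨y, h3⟩
    · have h4 : y = yz := by rw [← hpz, ← h3, hp]
      rw [h4]
      exact hP1
  · intro y u v hu hv hvm huv
    have hu1 : F u ∈ A1 := by
      rw [hu]
      exact TD_range h1 m hm y
    have hv1 : F v ∉ A1 := fun h3 => hvm (hall1 v h3)
    have hv2 : F v ∈ A2 := hv.resolve_left hv1
    have hu2 : F u ∈ A2 := by
      rcases hadj u v huv (Or.inl hu1) hv with h3 | h3
      · exact absurd (h1.mem _ _ h3).2 hv1
      · exact (h2.mem _ _ h3).1
    have huz : u = z := by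
      rcases hc2 with hc2 | hc2
      · -- `v` is `x`
        have hvx : F v = x := by
          by_contra hvx
          have hvκ : F v ∉ κ := by
            intro h3
            rcases hall _ h3 with h4 | h4 | h4
            · exact hvx h4
            · exact hv1 (h4 ▸ (h1.mem _ _ e1).2)
            · exact hv1 (h4 ▸ hz1)
          obtain ⟨C', hC', hvC, hb'⟩ := hcov v hv hvκ
          have hb1 : bd C' ∈ S1 := hb'.resolve_right (hc2 C' hC')
          obtain ⟨t, ht⟩ := hbd C' hC' v hvC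
          apply hv1
          rw [← ht]
          exact TD_range h1 _ hb1 t
        by_contra huz
        have e3 : Γ2 (F u) x := by
          rcases hadj u v huv (Or.inl hu1) hv with h3 | h3
          · exact absurd (h1.mem _ _ h3).2 hv1
          · rw [← hvx]
            exact h3
        -- the triangle `u z x`
        have h12 := TD.glu a b h1 h2 hd hA hab
        have n1 : F u ≠ F z := fun h => huz (hF h)
        have n2 : F z ≠ x := fun h => hx1 (h ▸ hz1)
        have n3 : F u ≠ x := fun h => hx1 (h ▸ hu1)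
        obtain ⟨m', hm', r1, r2, r3⟩ := TD_tri h12 (F u) (F z) x n1 n2 n3
          (Or.inr ⟨m, Or.inl hm, hall1 u hu1, ⟨yz, hyz⟩⟩) (Or.inl (Or.inr e2))
          (Or.inl (Or.inr e3))
        have h5 := two_eq hp hlin n1 r1 r2 (hall1 u hu1) ⟨yz, hyz⟩
        rw [h5] at r3
        obtain ⟨t, ht⟩ := r3
        apply hx1
        rw [← ht]
        exact TD_range h1 m hm t
      · exact both u hu1 hu2 hc2
    have h6 : y = yz := by rw [← hpz, ← huz, hu, hp]
    rw [h6]
    exact hP1
  · intro y u C' hC' hb' hbm huC hu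
    have hb2 : bd C' ∈ S2 := by
      rcases hb' with h3 | h3
      · exact absurd (cell1 C' hC' h3) hbm
      · exact h3
    have hu1 : F u ∈ A1 := by
      rw [hu]
      exact TD_range h1 m hm y
    have hu2 : F u ∈ A2 := by
      obtain ⟨t, ht⟩ := hbd C' hC' u huC
      rw [← ht]
      exact TD_range h2 _ hb2 t
    have huz : u = z := by
      rcases hc2 with hc2 | hc2
      · exact absurd hb2 (hc2 C' hC')
      · exact both u hu1 hu2 hc2
    have h6 : y = yz := by rw [← hpz, ← huz, hu, hp]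
    rw [h6]
    exact hP1

/-- The kernel is a star with a centre in `F(V)`, or outside `A`. -/
def SF (F : V → W) (Γ : W → W → Prop) (A : Set W) (κ : Finset W) : Prop :=
  κ.card ≤ 3 ∧ ((∀ x ∈ κ, x ∉ A) ∨ ∃ z, F z ∈ κ ∧ F z ∈ A ∧ ∀ x ∈ κ, x ∈ A → x = F z ∨ Γ (F z) x)

theorem SF.sk {F : V → W} {Γ : W → W → Prop} {A : Set W} {κ : Finset W} (h : SF F Γ A κ) :
    SK 3 Γ A κ := by
  refine ⟨h.1, ?_⟩
  rcases h.2 with h2 | ⟨z, h3, h4, h5⟩
  · exact Or.inl h2
  · exact Or.inr ⟨F z, h3, h4, h5⟩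

/-- The induction over tree graphs for kernels with three vertices. -/
theorem leaf_td3 {H : SimpleGraph (Fin n)} {e : Y → Fin n}
    (he : ∀ x y, P.Adj x y → H.Adj (e x) (e y)) (h0 : Fin n) {M : SimpleGraph V} {F : V → W}
    (hF : Injective F) {AA : Set (Finset V)} {bd : Finset V → MM}
    (hbd : ∀ C ∈ AA, ∀ u ∈ C, F u ∈ Set.range (δ (bd C)))
    (hp : ∀ m y, part (δ m y) = y)
    (hlin : ∀ m m', m ≠ m' → ∀ y y', δ m y = δ m' y → δ m y' = δ m' y' → y = y')
    (htwo : ∀ C ∈ AA, ∃ u ∈ C, ∃ v ∈ C, u ≠ v) {S : Set MM} {Γ : W → W → Prop} {A : Set W}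
    (h : TD δ P S Γ A) : ∀ κ, LH 3 M δ F AA bd S Γ A κ → SF F Γ A κ →
      (¬ ∃ m ∈ S, ∀ u, F u ∈ A → F u ∈ Set.range (δ m)) → LG H e M δ F AA bd S A κ := by
  classical
  induction h with
  | bod m =>
    intro κ _ _ hno
    exact absurd ⟨m, Set.mem_singleton m, fun u hu => hu⟩ hno
  | bip Γ A f h hA hs =>
    intro κ hκ _ _
    obtain ⟨C, hC, hCm⟩ := hκ.ne
    exact absurd hCm (Set.notMem_empty _)
  | @glu S1 S2 Γ1 Γ2 A1 A2 a b h1 h2 hd hA hab ih1 ih2 =>
    intro κ hκ hSF hno
    have hA' : ∀ x, x ∈ A2 → x ∈ A1 → x = a ∨ x = b := fun x h3 h4 => hA x h4 h3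
    have hab' : a = b ∨ (Γ2 a b ∧ Γ1 a b) := hab.imp id And.symm
    have hd' : ∀ m, m ∈ S2 → m ∉ S1 := fun m h3 h4 => hd m h4 h3
    have hadj' : ∀ u v, M.Adj u v → F u ∈ A2 ∪ A1 → F v ∈ A2 ∪ A1 →
        Γ2 (F u) (F v) ∨ Γ1 (F u) (F v) :=
      fun u v huv hu hv => (hκ.adj u v huv hu.symm hv.symm).symm
    have hcov' : ∀ u, F u ∈ A2 ∪ A1 → F u ∉ κ → ∃ C ∈ AA, u ∈ C ∧ bd C ∈ S2 ∪ S1 := by
      intro u hu hk
      obtain ⟨C, hC, huC, hb⟩ := hκ.cov u hu.symm hk
      exact ⟨C, hC, huC, hb.symm⟩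
    -- the kernel `{a, b}` in one side
    have skab : ∀ (Γ : W → W → Prop) (B : Set W), (∀ x y, Γ x y → x ∈ B ∧ y ∈ B) →
        (a = b ∨ Γ a b) → SK 2 Γ B {a, b} := by
      intro Γ B hm h3
      refine ⟨Finset.card_le_two, ?_⟩
      rcases h3 with h3 | h3
      · by_cases haB : a ∈ B
        · right
          refine ⟨a, by simp, haB, ?_⟩
          intro x hx _
          rw [Finset.mem_insert, Finset.mem_singleton] at hx
          rcases hx with hx | hx
          · exact Or.inl hx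
          · exact Or.inl (hx.trans h3.symm)
        · left
          intro x hx hxB
          rw [Finset.mem_insert, Finset.mem_singleton] at hx
          rcases hx with hx | hx
          · exact haB (hx ▸ hxB)
          · exact haB ((h3.trans hx.symm) ▸ hxB)
      · right
        refine ⟨a, by simp, (hm _ _ h3).1, ?_⟩
        intro x hx _
        rw [Finset.mem_insert, Finset.mem_singleton] at hx
        rcases hx with hx | hx
        · exact Or.inl hx
        · exact Or.inr (hx ▸ h3)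
    by_cases hk1 : ∀ x ∈ κ, x ∈ A1 ∪ A2 → x ∈ A1
    · by_cases hc : ∀ C ∈ AA, bd C ∈ S1 ∪ S2 → bd C ∈ S1
      · -- everything in the first part
        have hQ : ∀ u, F u ∈ A1 ∪ A2 → F u ∈ A1 := by
          intro u hu
          by_cases huκ : F u ∈ κ
          · exact hk1 _ huκ hu
          · obtain ⟨C, hC, huC, hb⟩ := hκ.cov u hu huκ
            obtain ⟨t, ht⟩ := hbd C hC u huC
            rw [← ht]
            exact TD_range h1 _ (hc C hC hb) t
        have hSF1 : SF F Γ1 A1 κ := by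
          refine ⟨hSF.1, ?_⟩
          rcases hSF.2 with h3 | ⟨z, hz, hzA, h3⟩
          · exact Or.inl (fun x hx hx1 => h3 x hx (Or.inl hx1))
          · right
            refine ⟨z, hz, hk1 _ hz hzA, ?_⟩
            intro x hx hx1
            rcases h3 x hx (Or.inl hx1) with h4 | h4
            · exact Or.inl h4
            · by_cases hxz : x = F z
              · exact Or.inl hxz
              · right
                rcases h4 with h4 | h4
                · exact h4
                · exact glu_edge hA hab h1.symm (fun h5 => hxz h5.symm) (hk1 _ hz hzA)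
                    (h2.mem _ _ h4).1 hx1 (h2.mem _ _ h4).2
        refine side hF hbd h1 h2 hA hab hκ.adj hκ.cov (κ1 := κ) hSF1.sk (fun x hx _ => hx) ?_
          (Or.inr ⟨hk1, hc⟩) (fun h3 => ih1 κ h3 hSF1 ?_)
        · obtain ⟨C, hC, hb⟩ := hκ.ne
          exact ⟨C, hC, hc C hC hb⟩
        · rintro ⟨m, hm, h4⟩
          exact hno ⟨m, Or.inl hm, fun u hu => h4 u (hQ u hu)⟩
      · push Not at hc
        obtain ⟨C, hC, hb, hb1⟩ := hc
        have hb2 : bd C ∈ S2 := hb.resolve_left hb1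
        refine LG_union_comm (side hF hbd h2 h1 hA' hab' hadj' hcov' (κ1 := {a, b})
          (skab Γ2 A2 h2.mem (hab.imp id And.right)) ?_ ⟨C, hC, hb2⟩ (Or.inl (by simp))
          (leaf_td he h0 hF hbd hp h2 _))
        intro x hx hx2
        rw [Finset.mem_insert, Finset.mem_singleton]
        exact hA x (hk1 x hx (Or.inr hx2)) hx2
    · by_cases hk2 : ∀ x ∈ κ, x ∈ A1 ∪ A2 → x ∈ A2
      · by_cases hc : ∀ C ∈ AA, bd C ∈ S1 ∪ S2 → bd C ∈ S2
        · have hQ : ∀ u, F u ∈ A1 ∪ A2 → F u ∈ A2 := by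
            intro u hu
            by_cases huκ : F u ∈ κ
            · exact hk2 _ huκ hu
            · obtain ⟨C, hC, huC, hb⟩ := hκ.cov u hu huκ
              obtain ⟨t, ht⟩ := hbd C hC u huC
              rw [← ht]
              exact TD_range h2 _ (hc C hC hb) t
          have hSF2 : SF F Γ2 A2 κ := by
            refine ⟨hSF.1, ?_⟩
            rcases hSF.2 with h3 | ⟨z, hz, hzA, h3⟩
            · exact Or.inl (fun x hx hx1 => h3 x hx (Or.inr hx1))
            · right
              refine ⟨z, hz, hk2 _ hz hzA, ?_⟩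
              intro x hx hx1
              rcases h3 x hx (Or.inr hx1) with h4 | h4
              · exact Or.inl h4
              · by_cases hxz : x = F z
                · exact Or.inl hxz
                · right
                  rcases h4 with h4 | h4
                  · exact glu_edge hA' hab' h2.symm (fun h5 => hxz h5.symm) (hk2 _ hz hzA)
                      (h1.mem _ _ h4).1 hx1 (h1.mem _ _ h4).2
                  · exact h4
          refine LG_union_comm (side hF hbd h2 h1 hA' hab' hadj' hcov' (κ1 := κ) hSF2.sk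
            (fun x hx _ => hx) ?_ (Or.inr ⟨fun x hx h3 => hk2 x hx h3.symm,
              fun C hC hb => hc C hC hb.symm⟩) (fun h3 => ih2 κ h3 hSF2 ?_))
          · obtain ⟨C, hC, hb⟩ := hκ.ne
            exact ⟨C, hC, hc C hC hb⟩
          · rintro ⟨m, hm, h4⟩
            exact hno ⟨m, Or.inr hm, fun u hu => h4 u (hQ u hu)⟩
        · push Not at hc
          obtain ⟨C, hC, hb, hb1⟩ := hc
          have hb2 : bd C ∈ S1 := hb.resolve_right hb1
          refine side hF hbd h1 h2 hA hab hκ.adj hκ.cov (κ1 := {a, b})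
            (skab Γ1 A1 h1.mem (hab.imp id And.left)) ?_ ⟨C, hC, hb2⟩ (Or.inl (by simp))
            (leaf_td he h0 hF hbd hp h1 _)
          intro x hx hx1
          rw [Finset.mem_insert, Finset.mem_singleton]
          exact hA x hx1 (hk2 x hx (Or.inl hx1))
      · -- the kernel is on both sides
        push Not at hk1 hk2
        obtain ⟨x, hx, hxA, hx1⟩ := hk1
        obtain ⟨x', hx', hxA', hx2'⟩ := hk2
        have hx2 : x ∈ A2 := hxA.resolve_left hx1
        have hx1' : x' ∈ A1 := hxA'.resolve_right hx2'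
        obtain ⟨hcard, hs⟩ := hSF
        rcases hs with hs | ⟨z, hz, hzA, hs⟩
        · exact absurd hxA (hs x hx)
        have hne : x ≠ x' := fun h => hx1 (h ▸ hx1')
        have hxz : x ≠ F z := by
          intro h5
          rcases hs x' hx' hxA' with h3 | h3 | h3
          · exact hne (h5.trans h3.symm)
          · exact hx1 (h5 ▸ (h1.mem _ _ h3).1)
          · exact hx2' (h2.mem _ _ h3).2
        have hxz' : x' ≠ F z := by
          intro h5
          rcases hs x hx hxA with h3 | h3 | h3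
          · exact hxz h3
          · exact hx1 (h1.mem _ _ h3).2
          · exact hx2' (h5 ▸ (h2.mem _ _ h3).1)
        have e2 : Γ2 (F z) x := by
          rcases hs x hx hxA with h3 | h3 | h3
          · exact absurd h3 hxz
          · exact absurd (h1.mem _ _ h3).2 hx1
          · exact h3
        have e1 : Γ1 (F z) x' := by
          rcases hs x' hx' hxA' with h3 | h3 | h3
          · exact absurd h3 hxz'
          · exact h3
          · exact absurd (h2.mem _ _ h3).2 hx2'
        have hz1 := (h1.mem _ _ e1).1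
        have hz2 := (h2.mem _ _ e2).1
        have hzab := hA _ hz1 hz2
        have hall : ∀ y ∈ κ, y = x ∨ y = x' ∨ y = F z := by
          intro y hy
          by_contra hno'
          push Not at hno'
          obtain ⟨n1, n2, n3⟩ := hno'
          have h4 : ({y, x, x', F z} : Finset W) ⊆ κ := by
            intro w hw
            simp only [Finset.mem_insert, Finset.mem_singleton] at hw
            rcases hw with rfl | rfl | rfl | rfl
            · exact hy
            · exact hx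
            · exact hx'
            · exact hz
          have h5 := Finset.card_le_card h4
          rw [Finset.card_insert_of_notMem (by simp [n1, n2, n3]),
            Finset.card_insert_of_notMem (by simp [hne, hxz]),
            Finset.card_insert_of_notMem (by simp [hxz']), Finset.card_singleton] at h5
          omega
        have sk3 : ∀ (Γ : W → W → Prop) (B : Set W) (w : W), F z ∈ B → Γ (F z) w →
            (a = b ∨ Γ a b) → (∀ x y, Γ x y → Γ y x) → SF F Γ B {w, a, b} := by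
          intro Γ B w hzB hw h3 hsym
          refine ⟨Finset.card_le_three, Or.inr ⟨z, ?_, hzB, ?_⟩⟩
          · rcases hzab with h4 | h4
            · rw [h4]
              simp
            · rw [h4]
              simp
          · intro y hy _
            simp only [Finset.mem_insert, Finset.mem_singleton] at hy
            rcases hy with hy | hy | hy
            · rw [hy]
              exact Or.inr hw
            · rw [hy]
              rcases hzab with h4 | h4
              · exact Or.inl h4.symm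
              · rcases h3 with h3 | h3
                · exact Or.inl (h3.trans h4.symm)
                · rw [h4]
                  exact Or.inr (hsym _ _ h3)
            · rw [hy]
              rcases hzab with h4 | h4
              · rcases h3 with h3 | h3
                · exact Or.inl (h3.symm.trans h4.symm)
                · rw [h4]
                  exact Or.inr h3
              · exact Or.inl h4.symm
        have hzk : ∀ w : W, F z ∈ ({w, a, b} : Finset W) := by
          intro w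
          rcases hzab with h4 | h4
          · rw [h4]
            simp
          · rw [h4]
            simp
        by_cases q1 : (∃ C ∈ AA, bd C ∈ S1) ∧
            ¬ ∃ m ∈ S1, ∀ u, F u ∈ A1 → F u ∈ Set.range (δ m)
        · have hsf := sk3 Γ1 A1 x' hz1 e1 (hab.imp id And.left) h1.symm
          refine side hF hbd h1 h2 hA hab hκ.adj hκ.cov (κ1 := {x', a, b}) hsf.sk ?_ q1.1
            (Or.inl (by simp)) (fun h3 => ih1 _ h3 hsf q1.2)
          intro y hy hy1
          rcases hall y hy with h4 | h4 | h4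
          · exact absurd (h4 ▸ hy1) hx1
          · rw [h4]
            simp
          · rw [h4]
            exact hzk x'
        · by_cases q2 : (∃ C ∈ AA, bd C ∈ S2) ∧
              ¬ ∃ m ∈ S2, ∀ u, F u ∈ A2 → F u ∈ Set.range (δ m)
          · have hsf := sk3 Γ2 A2 x hz2 e2 (hab.imp id And.right) h2.symm
            refine LG_union_comm (side hF hbd h2 h1 hA' hab' hadj' hcov' (κ1 := {x, a, b})
              hsf.sk ?_ q2.1 (Or.inl (by simp)) (fun h3 => ih2 _ h3 hsf q2.2))
            intro y hy hy2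
            rcases hall y hy with h4 | h4 | h4
            · rw [h4]
              simp
            · exact absurd (h4 ▸ hy2) hx2'
            · rw [h4]
              exact hzk x
          · have r1 : (∀ C ∈ AA, bd C ∉ S1) ∨
                ∃ m ∈ S1, ∀ u, F u ∈ A1 → F u ∈ Set.range (δ m) := by
              by_cases h3 : ∃ C ∈ AA, bd C ∈ S1
              · right
                by_contra h4
                exact q1 ⟨h3, h4⟩
              · left
                intro C hC hb
                exact h3 ⟨C, hC, hb⟩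
            have r2 : (∀ C ∈ AA, bd C ∉ S2) ∨
                ∃ m ∈ S2, ∀ u, F u ∈ A2 → F u ∈ Set.range (δ m) := by
              by_cases h3 : ∃ C ∈ AA, bd C ∈ S2
              · right
                by_contra h4
                exact q2 ⟨h3, h4⟩
              · left
                intro C hC hb
                exact h3 ⟨C, hC, hb⟩
            by_cases h3 : ∃ C ∈ AA, bd C ∈ S1
            · obtain ⟨m, hm, h4⟩ : ∃ m ∈ S1, ∀ u, F u ∈ A1 → F u ∈ Set.range (δ m) := by
                rcases r1 with r1 | r1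
                · obtain ⟨C, hC, hb⟩ := h3
                  exact absurd hb (r1 C hC)
                · exact r1
              exact endc he hF hbd hp hlin htwo h1 h2 hd hA hab hκ.adj hκ.cov hall hx1 e1 e2 h3
                hm h4 r2
            · obtain ⟨C, hC, hb⟩ := hκ.ne
              have hb2 : bd C ∈ S2 := hb.resolve_left (fun h4 => h3 ⟨C, hC, h4⟩)
              obtain ⟨m, hm, h4⟩ : ∃ m ∈ S2, ∀ u, F u ∈ A2 → F u ∈ Set.range (δ m) := by
                rcases r2 with r2 | r2
                · exact absurd hb2 (r2 C hC)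
                · exact r2
              exact LG_union_comm (endc he hF hbd hp hlin htwo h2 h1 hd' hA' hab' hadj' hcov'
                (fun y hy => (hall y hy).elim (fun h => Or.inr (Or.inl h))
                  (fun h => h.elim Or.inl (fun h => Or.inr (Or.inr h)))) hx2' e2 e1
                ⟨C, hC, hb2⟩ hm h4 r1)

end

/-- **Row R4.** -/
theorem leafE1 : LeafE1Statement := by
  classical
  intro n p H V _ _ M K z AA hH _ hc hn Y _ P hP Z S Γ A F h1 hno
  obtain ⟨e, hei, he⟩ := hP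
  have hVn : Nonempty V := hc.con.nonempty
  have h0 : Nonempty (Fin n) := by
    have h2 : 0 < Fintype.card V := Fintype.card_pos
    exact ⟨⟨0, by omega⟩⟩
  obtain ⟨h0⟩ := h0
  have hb : ∀ C ∈ AA, ∃ m ∈ S, ∀ u ∈ C, F u ∈ Set.range (Z.δ m) := by
    intro C hC
    obtain ⟨m, hm, h⟩ := (hc.rig C hC).e1 Y P ⟨e, hei, he⟩ Z S Γ A (fun u => F u.1)
      ⟨h1.td, fun a b hab => Subtype.ext (h1.inj hab), fun u => h1.mem _,
        fun u v huv => h1.adj _ _ huv⟩
    exact ⟨m, hm, fun u hu => h ⟨u, hu⟩⟩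
  have hM : Nonempty Z.M := by
    obtain ⟨C, hC⟩ := hc.ne
    obtain ⟨m, -⟩ := hb C hC
    exact ⟨m⟩
  obtain ⟨m0⟩ := hM
  set bd : Finset V → Z.M := fun C => if h : C ∈ AA then (hb C h).choose else m0 with hbd
  have hbS : ∀ C ∈ AA, bd C ∈ S := by
    intro C hC
    rw [hbd]
    simp only [hC, dif_pos]
    exact (hb C hC).choose_spec.1
  have hbr : ∀ C ∈ AA, ∀ u ∈ C, F u ∈ Set.range (Z.δ (bd C)) := by
    intro C hC
    rw [hbd]
    simp only [hC, dif_pos]
    exact (hb C hC).choose_spec.2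
  have hinjF := h1.inj
  have hSF : SF F Γ A (K.image F) := by
    refine ⟨Finset.card_image_le.trans hc.card, Or.inr ⟨z, ?_, h1.mem z, ?_⟩⟩
    · exact Finset.mem_image_of_mem _ hc.zK
    · intro x hx _
      obtain ⟨u, hu, rfl⟩ := Finset.mem_image.mp hx
      rcases hc.star u hu with h2 | h2
      · exact Or.inl (by rw [h2])
      · exact Or.inr (h1.adj _ _ h2)
  have htwo : ∀ C ∈ AA, ∃ u ∈ C, ∃ v ∈ C, u ≠ v := by
    intro C hC
    by_contra hno2
    push Not at hno2
    apply (hc.rig C hC).ncol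
    refine ⟨SimpleGraph.Coloring.mk (fun _ => (0 : Fin (p + 1))) ?_⟩
    intro a b hab
    exact absurd (Subtype.ext (hno2 a.1 a.2 b.1 b.2)) hab.ne
  have hLH : LH 3 M Z.δ F AA bd S Γ A (K.image F) := by
    refine ⟨hSF.sk, fun u v huv _ _ => h1.adj u v huv, ?_, ?_⟩
    · intro u _ hu
      have h2 : u ∉ K := fun h3 => hu (Finset.mem_image_of_mem _ h3)
      obtain ⟨C, hC, huC⟩ := hc.cov u h2
      exact ⟨C, hC, huC, hbS C hC⟩
    · obtain ⟨C, hC⟩ := hc.ne
      exact ⟨C, hC, hbS C hC⟩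
  obtain ⟨m, hm, ⟨C, hC, hCm⟩, Pi, ⟨hst, hPc⟩, c1, c2, c3⟩ := leaf_td3 he h0 h1.inj hbr Z.hp Z.lin
    htwo h1.td (K.image F) hLH hSF (by
      rintro ⟨m, hm, h2⟩
      exact hno ⟨m, hm, fun u => h2 u (h1.mem u)⟩)
  set N : Finset V := univ.filter (fun u => F u ∈ Set.range (Z.δ m)) with hN
  have hNm : ∀ u, u ∈ N ↔ F u ∈ Set.range (Z.δ m) := by
    intro u
    rw [hN, Finset.mem_filter]
    simp
  refine ⟨N, fun u => e (Z.part (F u)), Pi, ?_, ?_⟩
  · intro hNu
    apply hno
    refine ⟨m, hm, fun u => (hNm u).mp ?_⟩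
    rw [hNu]
    exact Finset.mem_univ u
  refine ⟨?_, ?_, hst, ?_, ?_, ?_, ?_, ?_, ?_⟩
  · intro u hu v hv huv
    obtain ⟨y, hy⟩ := (hNm u).mp hu
    obtain ⟨y', hy'⟩ := (hNm v).mp hv
    have h2 := hei huv
    rw [← hy, ← hy', Z.hp, Z.hp] at h2
    apply h1.inj
    rw [← hy, ← hy', h2]
  · intro u hu v hv huv
    obtain ⟨t, t', h2, h3, h4⟩ := TD_bod Z.hp h1.td m hm _ _ (h1.adj u v huv)
      ((hNm u).mp hu) ((hNm v).mp hv)
    show H.Adj (e (Z.part (F u))) (e (Z.part (F v)))
    rw [h2, h3, Z.hp, Z.hp]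
    exact he _ _ h4
  · intro v hv hvK
    obtain ⟨y, hy⟩ := (hNm v).mp hv
    show e (Z.part (F v)) ∈ Pi
    rw [← hy, Z.hp]
    exact c1 y (by rw [hy]; exact Finset.mem_image_of_mem _ hvK)
  · intro v hv u hu hvu
    obtain ⟨y, hy⟩ := (hNm v).mp hv
    show e (Z.part (F v)) ∈ Pi
    rw [← hy, Z.hp]
    exact c2 y v u hy.symm (h1.mem u) (fun h => hu ((hNm u).mpr h)) hvu
  · intro v hv C' hC' hvC' hsub
    obtain ⟨y, hy⟩ := (hNm v).mp hv
    show e (Z.part (F v)) ∈ Pi
    rw [← hy, Z.hp]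
    refine c3 y v C' hC' (hbS C' hC') ?_ hvC' hy.symm
    intro h2
    apply hsub
    intro u hu
    rw [hNm, ← h2]
    exact hbr C' hC' u hu
  · refine ⟨C, hC, ?_⟩
    intro u hu
    rw [hNm, ← hCm]
    exact hbr C hC u hu
  · intro hz a ha w hw haw hza hzw
    exfalso
    apply hz
    rw [hNm]
    have n1 : F z ≠ F a := fun h => hza.ne (h1.inj h)
    have n2 : F z ≠ F w := fun h => hzw.ne (h1.inj h)
    have n3 : F a ≠ F w := fun h => haw (h1.inj h)
    obtain ⟨m', hm', r1, r2, r3⟩ := TD_tri h1.td (F z) (F a) (F w) n1 n3 n2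
      (Or.inl (h1.adj _ _ hza)) (Or.inr ⟨m, hm, (hNm a).mp ha, (hNm w).mp hw⟩)
      (Or.inl (h1.adj _ _ hzw))
    by_cases hmm : m' = m
    · rw [← hmm]
      exact r1
    · exfalso
      obtain ⟨y, hy⟩ := r2
      obtain ⟨y2, hy2⟩ := r3
      obtain ⟨y', hy'⟩ := (hNm a).mp ha
      obtain ⟨y2', hy2'⟩ := (hNm w).mp hw
      have e1 : y = y' := by rw [← Z.hp m' y, hy, ← hy', Z.hp]
      have e2 : y2 = y2' := by rw [← Z.hp m' y2, hy2, ← hy2', Z.hp]
      subst e1
      subst e2
      have h5 := Z.lin m' m hmm y y2 (hy.trans hy'.symm) (hy2.trans hy2'.symm)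
      rw [h5] at hy
      exact n3 (hy.symm.trans hy2)
  · left
    refine le_trans (Set.ncard_le_ncard (t := (Pi : Set (Fin n))) ?_ (Finset.finite_toSet Pi)) ?_
    · intro x hx
      exact hx.1
    · rw [Set.ncard_coe_finset]
      exact hPc

end MP3240R
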