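import Pool.Agent.Lib.MP_3240be_co.CO.Base
import Pool.Agent.Lib.MP_3240be_co.SSL8.Td

/-!
# MP_3240be_co: rigid graphs (helper45, findings 4835 and 4844), definitions

`Rig H p M`: `M` is not `(p + 1)`-colourable, and every copy of `M` in a sparse system of copies of
a subgraph of `H` (E1) or in a gadget with complexes (E2) lies in one body.
-/

set_option autoImplicit false

namespace MP3240R

open Finset Function
open MP3240C (CxB)
open MP3240CO (XG Near)
open MP3240SSL (TD Sys)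
open MP3240X (VQ cq)
open Pool.Agent.Lib.MP_3240be_co.H36.Chrom (Sparse)

section
variable {n s : ℕ} {H : SimpleGraph (Fin n)} {Bl J C : Type}

/-- `x` lies in the body `b`: it is a slot or a root of the blob `b`. -/
def InBlob (ty : Bl → Fin s → H.Dart) (io : Bl → Fin s → J) (b : Bl) (x : VQ H s Bl J C) : Prop :=
  (∃ w, x = .b b w) ∨ ∃ j, x = .z j (io b j) (ty b j).fst ∨ x = .z j (io b j) (ty b j).snd

end

/-- `P` is (isomorphic to) a subgraph of `H`. -/
def Sub {Y : Type} {n : ℕ} (P : SimpleGraph Y) (H : SimpleGraph (Fin n)) : Prop :=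
  ∃ f : Y → Fin n, Injective f ∧ ∀ x y, P.Adj x y → H.Adj (f x) (f y)

/-- `F` embeds `M` into the tree graph `Γ` of a sparse system. -/
structure Is1 {V Y : Type} {P : SimpleGraph Y} (M : SimpleGraph V) (Z : Sys P) (S : Set Z.M)
    (Γ : Z.V → Z.V → Prop) (A : Set Z.V) (F : V → Z.V) : Prop where
  td : TD Z.δ P S Γ A
  inj : Injective F
  mem : ∀ u, F u ∈ A
  adj : ∀ u v, M.Adj u v → Γ (F u) (F v)

/-- `F` embeds `M` into the blue gadget with complexes. -/
structure Is2 {V : Type} {n s : ℕ} (H : SimpleGraph (Fin n)) (p : ℕ) (M : SimpleGraph V)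
    (xs ys : Fin s → Fin n) {Bl J C : Type} (ty : Bl → Fin s → H.Dart) (io : Bl → Fin s → J)
    (R : C → C → Prop) (A : C → Prop) (F : V → VQ H s Bl J C) : Prop where
  xg : XG H ∅ xs ys
  ioi : ∀ b, Injective (io b)
  sp : Sparse (n * n) io
  sym : ∀ a b, R a b → R b a
  cx : CxB R A n p
  inj : Injective F
  inn : ∀ u b w, F u = .b b w → ∀ j, w ≠ xs j ∧ w ≠ ys j
  near : ∀ u j i φ w c, F u = .g j i φ w c → Near H xs ys j w
  adj : ∀ u v, M.Adj u v → cq xs ys ty io R A (F u) (F v)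

/-- Rigid graphs. -/
structure Rig {V : Type} {n : ℕ} (H : SimpleGraph (Fin n)) (p : ℕ) (M : SimpleGraph V) : Prop where
  ncol : ¬ M.Colorable (p + 1)
  e1 : ∀ (Y : Type) [Finite Y] (P : SimpleGraph Y), Sub P H → ∀ (Z : Sys P) (S : Set Z.M)
    (Γ : Z.V → Z.V → Prop) (A : Set Z.V) (F : V → Z.V), Is1 M Z S Γ A F →
    ∃ m ∈ S, ∀ u, F u ∈ Set.range (Z.δ m)
  e2 : ∀ (s : ℕ) (xs ys : Fin s → Fin n) (Bl J C : Type) (ty : Bl → Fin s → H.Dart)
    (io : Bl → Fin s → J) (R : C → C → Prop) (A : C → Prop) (F : V → VQ H s Bl J C),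
    Is2 H p M xs ys ty io R A F → ∃ b, ∀ u, InBlob ty io b (F u)

/-- A set of at most three vertices with a central vertex. -/
def Star {W : Type} (G : SimpleGraph W) (K : Finset W) : Prop :=
  K.card ≤ 3 ∧ ∃ z ∈ K, ∀ x ∈ K, x = z ∨ G.Adj z x

/-- A smaller part: `N` with the positions `pos`; `Π` is a star of `H`, `z` the centre of the
kernel `K`.  Field `few`: at most two elements of `Π` are positions, or an edge of `H` between
positions is missing in `M`. -/
structure Leaf {V : Type} {n : ℕ} (H : SimpleGraph (Fin n)) (M : SimpleGraph V) (K : Finset V)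
    (z : V) (AA : Set (Finset V)) (N : Finset V) (pos : V → Fin n) (Pi : Finset (Fin n)) :
    Prop where
  inj : ∀ u ∈ N, ∀ v ∈ N, pos u = pos v → u = v
  adj : ∀ u ∈ N, ∀ v ∈ N, M.Adj u v → H.Adj (pos u) (pos v)
  star : Star H Pi
  ex1 : ∀ v ∈ N, v ∈ K → pos v ∈ Pi
  ex2 : ∀ v ∈ N, ∀ u, u ∉ N → M.Adj v u → pos v ∈ Pi
  ex3 : ∀ v ∈ N, ∀ A ∈ AA, v ∈ A → ¬ A ⊆ N → pos v ∈ Pi
  cell : ∃ A ∈ AA, A ⊆ N
  tri : z ∉ N → ∀ a ∈ N, ∀ w ∈ N, a ≠ w → M.Adj z a → M.Adj z w → H.Adj (pos a) (pos w)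
  few : {x : Fin n | x ∈ Pi ∧ ∃ v ∈ N, pos v = x}.ncard ≤ 2 ∨
    ∃ u ∈ N, ∃ v ∈ N, H.Adj (pos u) (pos v) ∧ ¬ M.Adj u v

/-- The hypotheses of the leaf statements: a connected graph `M`, a kernel `K` with the centre `z`,
the cells `AA`. -/
structure Cells {V : Type} {n : ℕ} (H : SimpleGraph (Fin n)) (p : ℕ) (M : SimpleGraph V)
    (K : Finset V) (z : V) (AA : Set (Finset V)) : Prop where
  con : M.Connected
  card : K.card ≤ 3
  zK : z ∈ K
  star : ∀ x ∈ K, x = z ∨ M.Adj z x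
  cov : ∀ v, v ∉ K → ∃ A ∈ AA, v ∈ A
  ne : ∃ A, A ∈ AA
  rig : ∀ A ∈ AA, Rig H p (M.induce (A : Set V))

/-- Row R4. -/
def LeafE1Statement : Prop :=
  ∀ (n p : ℕ) (H : SimpleGraph (Fin n)) (V : Type) [Fintype V] [DecidableEq V]
    (M : SimpleGraph V) (K : Finset V) (z : V) (AA : Set (Finset V)), H.Connected → 1 ≤ p →
    Cells H p M K z AA → Fintype.card V ≤ n → ∀ (Y : Type) [Finite Y] (P : SimpleGraph Y),
    Sub P H → ∀ (Z : Sys P) (S : Set Z.M) (Γ : Z.V → Z.V → Prop) (A : Set Z.V) (F : V → Z.V),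
    Is1 M Z S Γ A F → (¬ ∃ m ∈ S, ∀ u, F u ∈ Set.range (Z.δ m)) →
    ∃ (N : Finset V) (pos : V → Fin n) (Pi : Finset (Fin n)), N ≠ univ ∧
      Leaf H M K z AA N pos Pi

/-- Row R5. -/
def LeafE2Statement : Prop :=
  ∀ (n p : ℕ) (H : SimpleGraph (Fin n)) (V : Type) [Fintype V] [DecidableEq V]
    (M : SimpleGraph V) (K : Finset V) (z : V) (AA : Set (Finset V)), H.Connected → 1 ≤ p →
    Cells H p M K z AA → Fintype.card V ≤ n → ∀ (s : ℕ) (xs ys : Fin s → Fin n)
    (Bl J C : Type) (ty : Bl → Fin s → H.Dart) (io : Bl → Fin s → J) (R : C → C → Prop)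
    (A : C → Prop) (F : V → VQ H s Bl J C), Is2 H p M xs ys ty io R A F →
    (¬ ∃ b, ∀ u, InBlob ty io b (F u)) →
    ∃ (N : Finset V) (pos : V → Fin n) (Pi : Finset (Fin n)), N ≠ univ ∧
      Leaf H M K z AA N pos Pi

/-- Forests: every nonempty set `S` spans at most `2 (|S| - 1)` ordered pairs. -/
def Fo {V : Type} (G : V → V → Prop) : Prop := by
  classical exact ∀ S : Finset V, S.Nonempty →
    ((S ×ˢ S).filter (fun x => G x.1 x.2)).card + 2 ≤ 2 * S.card

/-- The vertices of `G` have a partition into `r` forests, and for every edge there are such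
partitions in which its ends are in one class or in two classes. -/
def PR (r : ℕ) {V : Type} (G : SimpleGraph V) : Prop :=
  (∃ κ : V → Fin r, Fo (fun x y => G.Adj x y ∧ κ x = κ y)) ∧
    ∀ u v, G.Adj u v → ∀ e : Bool, ∃ κ : V → Fin r, Fo (fun x y => G.Adj x y ∧ κ x = κ y) ∧
      (κ u = κ v ↔ e = true)

end MP3240R
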